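import Pool.Agent.Helper18.NF.StC
import Pool.Agent.Helper18.BV.Cor

/-!
# Project NF (MP_265190_nt), module C4, part 1: the analytic endgame
-/

set_option autoImplicit false

open Finset Filter Topology
open Pool.Agent.Helper18.NF Pool.Agent.Helper18.BV
open scoped Classical

namespace Pool.Agent.Helper14.NF

/-- The analytic endgame of `main2_of` for an abstract family of special primes. -/
theorem endgame {α : ℝ} (hα0 : 0 < α) (hα1 : α ≤ 1 / 4) {h k : ℕ} (hh : h = ⌊1 / α⌋₊ + 1)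
    (hkpos : 0 < k) (hR : RankLemma) (A : Finset ℕ) (hA : ∀ a ∈ A, ¬ Dense a) (X : ℕ)
    (b : Fin k → ℕ) (hb : ∀ i, 2 ≤ b i ∧ b i ≤ X)
    (hind : ∀ e : Fin k → ℤ, ∏ i, ((b i : ℕ) : ℚ) ^ e i = 1 → e = 0)
    (Q : ℝ → ℕ → Prop)
    (hmass' : ∀ g : ℝ → ℝ, IsWt g → (∃ y, g y ≠ 0) → ∃ c X0 : ℝ, 0 < c ∧ 3 ≤ X0 ∧
      ∀ x : ℝ, X0 ≤ x → ∀ E : Finset ℕ, (∀ p : ℕ, p ∈ E ↔ (p.Prime ∧ (p : ℝ) ≤ x ∧ Q x p)) →
        c ≤ ∑ p ∈ E, Real.log p * wt g x p)
    (hcovQ : ∀ x : ℝ, 1 < x → ∀ p : ℕ, p.Prime → (p : ℝ) ≤ x → X < p → Q x p →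
      (∃ a ∈ A, LeastRoot a p) ∨ ∃ J : Fin h ↪ Fin k, ∃ m : ℕ, 0 < m ∧ (m : ℝ) ≤ x ^ (1 - α) ∧
        ∀ i, ((b (J i) : ℕ) : ZMod p) ^ m = 1) : False := by
  have hhpos : 0 < h := by omega
  have hhα : 1 / (h : ℝ) ≤ α := by
    have h1 : 1 / α < h := by
      rw [hh]; push_cast; exact Nat.lt_floor_add_one _
    have h2 : (0:ℝ) < h := by exact_mod_cast hhpos
    rw [div_lt_iff₀ hα0] at h1
    rw [div_le_iff₀ h2]
    linarith
  have hα2 : 0 < α ^ 2 := by positivity
  set τ : ℝ := α ^ 2 / 2 with hτ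
  have hτ0 : 0 < τ := by rw [hτ]; positivity
  have hτ1 : τ ≤ 1 / 8 := by rw [hτ]; nlinarith
  obtain ⟨g, hg, hgne, hg1, hg0⟩ := exists_wt hτ0 (by linarith)
  obtain ⟨c, X0, hc, hX0, hmass⟩ := hmass' g hg hgne
  have hX2 : 2 ≤ X := (hb ⟨0, hkpos⟩).1.trans (hb ⟨0, hkpos⟩).2
  set c' : ℝ := c / (32 * (A.card + 1)) with hc'
  have hc'0 : 0 < c' := by rw [hc']; positivity
  obtain ⟨y0, hfew⟩ := not_dense_uniform A hA c' hc'0
  -- constants of the rank lemma
  have hrank : ∀ J : Fin h ↪ Fin k, ∃ C : ℝ, 0 < C ∧ ∀ y : ℝ, 1 ≤ y → ∀ S : Finset ℕ,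
      (∀ p ∈ S, p.Prime ∧ (∀ i, ¬ p ∣ b (J i)) ∧ ∃ m : ℕ, 0 < m ∧ (m : ℝ) ≤ y ∧
        ∀ i, ((b (J i) : ℕ) : ZMod p) ^ m = 1) → (S.card : ℝ) ≤ C * y ^ (1 + 1 / (h : ℝ)) :=
    fun J => hR h (fun i => b (J i)) hhpos (fun i => (hb (J i)).1) (indep_sub hind J)
  choose CJ hCJ0 hCJ using hrank
  set C : ℝ := ∑ J : Fin h ↪ Fin k, CJ J with hC
  have hC0 : 0 ≤ C := Finset.sum_nonneg fun J _ => (hCJ0 J).le
  -- the key inequality
  have key : ∀ x : ℝ, X0 ≤ x → 4 ≤ x → (X : ℝ) < x ^ (1 - τ) → y0 ≤ x ^ (1 - τ) →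
      c / 2 ≤ C * (Real.log x * x ^ (-τ)) := by
    intro x hx0 hx4 hxX hxy
    have hx1 : 1 < x := by linarith
    have hxpos : 0 < x := by linarith
    have hlog : 0 < Real.log x := Real.log_pos hx1
    set E : Finset ℕ := (Finset.range (⌊x⌋₊ + 1)).filter (fun p => p.Prime ∧ Q x p) with hE
    have hEmem : ∀ p : ℕ, p ∈ E ↔ (p.Prime ∧ (p : ℝ) ≤ x ∧ Q x p) := by
      intro p
      rw [hE, Finset.mem_filter, Finset.mem_range, Nat.lt_succ_iff, Nat.le_floor_iff hxpos.le]
      tauto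
    have h1 := hmass x hx0 E hEmem
    set E' : Finset ℕ := E.filter (fun p => x ^ (1 - τ) < (p : ℝ)) with hE'
    have hE'mem : ∀ p ∈ E', p.Prime ∧ (p : ℝ) ≤ x ∧ x ^ (1 - τ) < (p : ℝ) ∧ Q x p := by
      intro p hp
      obtain ⟨hpE, hpx⟩ := Finset.mem_filter.1 hp
      obtain ⟨a1, a2, a3⟩ := (hEmem p).1 hpE
      exact ⟨a1, a2, hpx, a3⟩
    -- only `E'` matters
    have h3 : ∑ p ∈ E, Real.log p * wt g x p = ∑ p ∈ E', Real.log p * wt g x p := by
      symm
      apply Finset.sum_subset (Finset.filter_subset _ _)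
      intro p hpE hpE'
      have hple : (p : ℝ) ≤ x ^ (1 - τ) := by
        by_contra hlt
        exact hpE' (Finset.mem_filter.2 ⟨hpE, not_le.1 hlt⟩)
      have hp := ((hEmem p).1 hpE).1
      have hp0 : (0 : ℝ) < p := by exact_mod_cast hp.pos
      have hlp : Real.log p ≤ (1 - τ) * Real.log x := by
        rw [← Real.log_rpow hxpos]
        exact Real.log_le_log hp0 hple
      have : g (Real.log p / Real.log x) = 0 := by
        apply hg0
        rw [div_le_iff₀ hlog]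
        exact hlp
      rw [wt, this]; simp
    -- covering
    set B : (Fin h ↪ Fin k) → Finset ℕ := fun J => E'.filter (fun p =>
          ∃ m : ℕ, 0 < m ∧ (m : ℝ) ≤ x ^ (1 - α) ∧ ∀ i, ((b (J i) : ℕ) : ZMod p) ^ m = 1) with hB
    set F : ℕ → Finset ℕ := fun a => E'.filter (fun p => LeastRoot a p) with hF
    have hcov : E' ⊆ (A.biUnion F) ∪ (Finset.univ : Finset (Fin h ↪ Fin k)).biUnion B := by
      intro p hp
      obtain ⟨hpp, hple, hpx, hpQ⟩ := hE'mem p hp
      have hXp : X < p := by exact_mod_cast hxX.trans hpx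
      rcases hcovQ x hx1 p hpp hple hXp hpQ with ⟨a, ha1, ha3⟩ | ⟨J, hJ⟩
      · apply Finset.mem_union_left
        rw [Finset.mem_biUnion]
        exact ⟨a, ha1, Finset.mem_filter.2 ⟨hp, ha3⟩⟩
      · apply Finset.mem_union_right
        rw [Finset.mem_biUnion]
        exact ⟨J, Finset.mem_univ _, Finset.mem_filter.2 ⟨hp, hJ⟩⟩
    have hnn : ∀ p : ℕ, 0 ≤ Real.log p * wt g x p := by
      intro p
      rcases Nat.eq_zero_or_pos p with rfl | hp
      · simp
      · exact mul_nonneg (Real.log_nonneg (by exact_mod_cast hp))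
          (div_nonneg (hg.nonneg _) (Nat.cast_nonneg _))
    have hsplit : ∑ p ∈ E', Real.log p * wt g x p ≤
        ∑ a ∈ A, ∑ p ∈ F a, Real.log p * wt g x p +
          ∑ J : Fin h ↪ Fin k, ∑ p ∈ B J, Real.log p * wt g x p := by
      calc ∑ p ∈ E', Real.log p * wt g x p
          ≤ ∑ p ∈ (A.biUnion F) ∪ (Finset.univ : Finset (Fin h ↪ Fin k)).biUnion B,
              Real.log p * wt g x p :=
            Finset.sum_le_sum_of_subset_of_nonneg hcov (fun p _ _ => hnn p)
        _ ≤ ∑ p ∈ A.biUnion F, Real.log p * wt g x p +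
            ∑ p ∈ (Finset.univ : Finset (Fin h ↪ Fin k)).biUnion B, Real.log p * wt g x p := by
            rw [← Finset.sum_union_inter]
            have : 0 ≤ ∑ p ∈ (A.biUnion F) ∩ (Finset.univ : Finset (Fin h ↪ Fin k)).biUnion B,
              Real.log p * wt g x p := Finset.sum_nonneg fun p _ => hnn p
            linarith
        _ ≤ _ := add_le_add
            (sum_biUnion_le' _ _ _ hnn) (sum_biUnion_le' _ _ _ hnn)
    -- contribution of the least primitive roots
    have hFa : ∀ a ∈ A, ∑ p ∈ F a, Real.log p * wt g x p ≤ 16 * c' := by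
      intro a ha
      have hterm : ∀ p ∈ F a, Real.log p * wt g x p ≤ Real.log p / p := by
        intro p hp
        have hpp := (hE'mem p (Finset.mem_filter.1 hp).1).1
        have hp0 : (0 : ℝ) < p := by exact_mod_cast hpp.pos
        have hlp0 : 0 ≤ Real.log p := Real.log_nonneg (by exact_mod_cast hpp.one_le)
        rw [div_eq_mul_one_div]
        apply mul_le_mul_of_nonneg_left _ hlp0
        exact div_le_div_of_nonneg_right (hg1 _) hp0.le
      refine (Finset.sum_le_sum hterm).trans ?_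
      apply dyadic hc'0.le hx4 (z := x ^ (1 - τ))
      · exact Real.rpow_le_rpow_of_exponent_le hx1.le (by linarith)
      · intro p hp
        obtain ⟨_, a2, a3, _⟩ := hE'mem p (Finset.mem_filter.1 hp).1
        exact ⟨a3.le, a2⟩
      · intro y hy
        refine le_trans ?_ (hfew a ha y (hxy.trans hy)).le
        have hy0 : 0 ≤ y := (Real.rpow_nonneg hxpos.le _).trans hy
        have : (F a).filter (fun p : ℕ => (p : ℝ) ≤ y) ⊆
            (range (⌊y⌋₊ + 1)).filter (LeastRoot a) := by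
          intro p hp
          obtain ⟨hp1, hp2⟩ := Finset.mem_filter.1 hp
          rw [Finset.mem_filter, Finset.mem_range, Nat.lt_succ_iff, Nat.le_floor_iff hy0]
          exact ⟨hp2, (Finset.mem_filter.1 hp1).2⟩
        exact_mod_cast Finset.card_le_card this
    -- contribution of the bad primes
    have hxα : 1 ≤ x ^ (1 - α) := Real.one_le_rpow hx1.le (by linarith)
    have hexp : (x ^ (1 - α)) ^ (1 + 1 / (h : ℝ)) ≤ x ^ (1 - α ^ 2) := by
      rw [← Real.rpow_mul hxpos.le]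
      apply Real.rpow_le_rpow_of_exponent_le hx1.le
      have : (1 - α) * (1 + 1 / (h : ℝ)) ≤ (1 - α) * (1 + α) :=
        mul_le_mul_of_nonneg_left (by linarith) (by linarith)
      nlinarith
    have hBJ : ∀ J : Fin h ↪ Fin k, ∑ p ∈ B J, Real.log p * wt g x p ≤
        CJ J * (Real.log x * x ^ (-τ)) := by
      intro J
      have hcard : ((B J).card : ℝ) ≤ CJ J * x ^ (1 - α ^ 2) := by
        refine (hCJ J (x ^ (1 - α)) hxα _ ?_).trans
          (mul_le_mul_of_nonneg_left hexp (hCJ0 J).le)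
        intro p hp
        obtain ⟨hpE', hpm⟩ := Finset.mem_filter.1 hp
        obtain ⟨hpp, _, hpx, _⟩ := hE'mem p hpE'
        have hXp : X < p := by exact_mod_cast hxX.trans hpx
        refine ⟨hpp, fun i hd => ?_, hpm⟩
        have := Nat.le_of_dvd (by have := (hb (J i)).1; omega) hd
        have := (hb (J i)).2
        omega
      calc ∑ p ∈ B J, Real.log p * wt g x p ≤ ∑ p ∈ B J, Real.log x * x ^ (τ - 1) := by
            apply Finset.sum_le_sum
            intro p hp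
            obtain ⟨hpp, hple, hpx, _⟩ := hE'mem p (Finset.mem_filter.1 hp).1
            have hp0 : (0 : ℝ) < p := by exact_mod_cast hpp.pos
            have hlp : Real.log p ≤ Real.log x := Real.log_le_log hp0 hple
            have hxt : 0 < x ^ (1 - τ) := Real.rpow_pos_of_pos hxpos _
            have hw : wt g x p ≤ x ^ (τ - 1) := by
              unfold wt
              calc g (Real.log p / Real.log x) / p ≤ 1 / x ^ (1 - τ) :=
                    div_le_div₀ zero_le_one (hg1 _) hxt hpx.le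
                _ = x ^ (τ - 1) := by
                    rw [one_div, ← Real.rpow_neg hxpos.le]; congr 1; ring
            have hw0 : 0 ≤ wt g x p := div_nonneg (hg.nonneg _) hp0.le
            exact mul_le_mul hlp hw hw0 hlog.le
        _ = ((B J).card : ℝ) * (Real.log x * x ^ (τ - 1)) := by
            rw [Finset.sum_const, nsmul_eq_mul]
        _ ≤ (CJ J * x ^ (1 - α ^ 2)) * (Real.log x * x ^ (τ - 1)) :=
            mul_le_mul_of_nonneg_right hcard (by positivity)
        _ = CJ J * (Real.log x * (x ^ (1 - α ^ 2) * x ^ (τ - 1))) := by ring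
        _ = CJ J * (Real.log x * x ^ (-τ)) := by
            rw [← Real.rpow_add hxpos]
            congr 3
            rw [hτ]; ring
    have hfin : c ≤ A.card * (16 * c') + C * (Real.log x * x ^ (-τ)) := by
      calc c ≤ ∑ p ∈ E, Real.log p * wt g x p := h1
        _ = ∑ p ∈ E', Real.log p * wt g x p := h3
        _ ≤ _ := hsplit
        _ ≤ ∑ a ∈ A, 16 * c' + ∑ J : Fin h ↪ Fin k, CJ J * (Real.log x * x ^ (-τ)) :=
            add_le_add (Finset.sum_le_sum hFa) (Finset.sum_le_sum fun J _ => hBJ J)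
        _ = A.card * (16 * c') + C * (Real.log x * x ^ (-τ)) := by
            rw [Finset.sum_const, nsmul_eq_mul, ← Finset.sum_mul]
    have hAc : (A.card : ℝ) * (16 * c') ≤ c / 2 := by
      have hA0 : (0:ℝ) ≤ A.card := Nat.cast_nonneg _
      have h9 : (A.card : ℝ) * (16 * c') = (A.card / (A.card + 1)) * (c / 2) := by
        rw [hc']; field_simp; ring
      rw [h9]
      have h10 : (A.card : ℝ) / (A.card + 1) ≤ 1 := by
        rw [div_le_one (by linarith)]; linarith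
      nlinarith
    linarith
  -- the limit
  have hlim : Tendsto (fun x : ℝ => C * (Real.log x * x ^ (-τ))) atTop (𝓝 0) := by
    have h1 : Tendsto (fun x : ℝ => Real.log x / x ^ τ) atTop (𝓝 0) :=
      (isLittleO_log_rpow_atTop hτ0).tendsto_div_nhds_zero
    have h2 : Tendsto (fun x : ℝ => C * (Real.log x / x ^ τ)) atTop (𝓝 0) := by
      simpa using h1.const_mul C
    refine h2.congr' ?_
    filter_upwards [eventually_gt_atTop (0:ℝ)] with x hx
    rw [Real.rpow_neg hx.le, div_eq_mul_inv]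
  have hev : ∀ᶠ x : ℝ in atTop, (X : ℝ) < x ^ (1 - τ) :=
    (tendsto_rpow_atTop (by linarith : 0 < 1 - τ)).eventually_gt_atTop _
  have hev' : ∀ᶠ x : ℝ in atTop, y0 ≤ x ^ (1 - τ) :=
    (tendsto_rpow_atTop (by linarith : 0 < 1 - τ)).eventually_ge_atTop _
  obtain ⟨x, hx1, hx2, hx3, hx4, hx5⟩ := ((hlim.eventually (gt_mem_nhds (half_pos hc))).and
    (hev.and (hev'.and ((eventually_ge_atTop X0).and (eventually_ge_atTop 4))))).exists
  exact absurd (key x hx4 hx5 hx2 hx3) (not_le.2 hx1)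

/-- a residue whose `(p - 1) / r`-th power is `1` is an `r`-th power -/
theorem exists_root_of_pow {p : ℕ} (hp : p.Prime) {r : ℕ} (hr : r.Prime) (hrd : r ∣ p - 1)
    {b : ZMod p} (hb : b ≠ 0) (h : b ^ ((p - 1) / r) = 1) : ∃ z : ZMod p, z ^ r = b := by
  have := Fact.mk hp
  obtain ⟨g, hg⟩ := IsCyclic.exists_generator (α := (ZMod p)ˣ)
  have hord : orderOf g = p - 1 := by
    rw [orderOf_eq_card_of_forall_mem_zpowers hg, Nat.card_eq_fintype_card, ZMod.card_units_eq_totient,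
      Nat.totient_prime hp]
  obtain ⟨j, hj⟩ := (mem_powers_iff_mem_zpowers.2 (hg (Units.mk0 b hb)) : Units.mk0 b hb ∈ Submonoid.powers g)
  have hj' : g ^ j = Units.mk0 b hb := hj
  have h1 : g ^ (j * ((p - 1) / r)) = 1 := by
    rw [pow_mul, hj']
    ext
    simpa using h
  have h2 := orderOf_dvd_of_pow_eq_one h1
  rw [hord] at h2
  obtain ⟨m, hm⟩ := hrd
  have hr0 := hr.pos
  have hp1 : 0 < p - 1 := by have := hp.two_le; omega
  have hm0 : 0 < m := by
    rcases Nat.eq_zero_or_pos m with rfl | h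
    · simp at hm; omega
    · exact h
  rw [hm, Nat.mul_div_cancel_left _ hr0] at h2
  have h3 : r ∣ j := Nat.dvd_of_mul_dvd_mul_right hm0 h2
  obtain ⟨i, hi⟩ := h3
  refine ⟨((g ^ i : (ZMod p)ˣ) : ZMod p), ?_⟩
  have h4 : (g ^ i) ^ r = Units.mk0 b hb := by rw [← pow_mul, mul_comm, ← hi, hj']
  have h5 := congrArg (fun u : (ZMod p)ˣ => (u : ZMod p)) h4
  simpa using h5

/-- a primitive root is not an `r`-th power for a prime `r ∣ p - 1` -/
theorem not_root_of_pow {p : ℕ} (hp : p.Prime) {r : ℕ} (hr : r.Prime) (hrd : r ∣ p - 1)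
    {b : ZMod p} (h : orderOf b = p - 1) : ¬ ∃ z : ZMod p, z ^ r = b := by
  have := Fact.mk hp
  rintro ⟨z, rfl⟩
  have hp1 : 0 < p - 1 := by have := hp.two_le; omega
  have hz : z ≠ 0 := by
    rintro rfl
    rw [zero_pow hr.ne_zero] at h
    have h0 : ¬ IsOfFinOrder (0 : ZMod p) := by
      rw [isOfFinOrder_iff_pow_eq_one]
      rintro ⟨n, hn, h1⟩
      rw [zero_pow hn.ne'] at h1
      exact zero_ne_one h1
    rw [orderOf_eq_zero h0] at h
    omega
  obtain ⟨m, hm⟩ := hrd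
  have hm0 : 0 < m := by
    rcases Nat.eq_zero_or_pos m with rfl | h
    · simp at hm; omega
    · exact h
  have h1 : (z ^ r) ^ m = 1 := by
    rw [← pow_mul, ← hm]
    exact ZMod.pow_card_sub_one_eq_one hz
  have h2 := orderOf_dvd_of_pow_eq_one h1
  rw [h] at h2
  have h3 := Nat.le_of_dvd hm0 h2
  have h4 := hr.two_le
  nlinarith

/-- The covering step for one special prime. -/
theorem coverK {α x : ℝ} (hα : 0 < α) (hx : 1 < x) {k h X : ℕ} (hk : k = (⌊1 / α⌋₊ + 1) * h)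
    (hh : 0 < h) {A Ls : Finset ℕ} {b : Fin k → ℕ} (hb : ∀ i, 2 ≤ b i ∧ b i ≤ X)
    {p : ℕ} (hp : p.Prime) (hpx : (p : ℝ) ≤ x) (hXp : X < p)
    (hr : ∀ r : ℕ, r.Prime → r ∣ p - 1 → r = 2 ∨ r ∈ Ls ∨ x ^ α < (r : ℝ))
    (hres : ∀ i, ∀ r : ℕ, r.Prime → r ∣ p - 1 → (r = 2 ∨ r ∈ Ls) →
      ¬ ∃ z : ZMod p, z ^ r = ((b i : ℕ) : ZMod p))
    (hleast : ∀ a : ℕ, 1 ≤ a → a ≤ X → orderOf ((a : ZMod p)) = p - 1 → a ∈ A) :
    (∃ a ∈ A, LeastRoot a p) ∨
      ∃ J : Fin h ↪ Fin k, ∃ m : ℕ, 0 < m ∧ (m : ℝ) ≤ x ^ (1 - α) ∧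
        ∀ i, ((b (J i) : ℕ) : ZMod p) ^ m = 1 := by
  have := Fact.mk hp
  have hkpos : 0 < k := by rw [hk]; positivity
  have hp2 : 2 < p := by
    have := hb ⟨0, hkpos⟩
    omega
  have hndvd : ∀ i, ¬ p ∣ b i := by
    intro i hdvd
    have := Nat.le_of_dvd (by have := (hb i).1; omega) hdvd
    have := (hb i).2
    omega
  have hb0 : ∀ i, ((b i : ℕ) : ZMod p) ≠ 0 := by
    intro i
    rw [Ne, ZMod.natCast_eq_zero_iff]
    exact hndvd i
  by_cases hroot : ∃ i, orderOf (((b i : ℕ) : ZMod p)) = p - 1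
  · left
    obtain ⟨i, hi⟩ := hroot
    obtain ⟨a, ha1, ha2, ha3⟩ := exists_least hp (by have := (hb i).1; omega) hi
    exact ⟨a, hleast a ha1 (ha2.trans (hb i).2) ha3.2.1, ha3⟩
  · right
    push Not at hroot
    have hex : ∀ i, ∃ r : ℕ, r.Prime ∧ r ∣ p - 1 ∧ (((b i : ℕ) : ZMod p)) ^ ((p - 1) / r) = 1 :=
      fun i => exists_prime_of_not_root hp (hndvd i) (hroot i)
    choose rf hrp hrd hrb using hex
    have hrl : ∀ i, x ^ α < (rf i : ℝ) := by
      intro i
      rcases hr (rf i) (hrp i) (hrd i) with h2 | h2 | h2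
      · exfalso
        exact hres i (rf i) (hrp i) (hrd i) (Or.inl h2)
          (exists_root_of_pow hp (hrp i) (hrd i) (hb0 i) (hrb i))
      · exfalso
        exact hres i (rf i) (hrp i) (hrd i) (Or.inr h2)
          (exists_root_of_pow hp (hrp i) (hrd i) (hb0 i) (hrb i))
      · exact h2
    set R : Finset ℕ := Finset.univ.image rf with hR
    have hRcard : R.card ≤ ⌊1 / α⌋₊ := by
      apply card_large hα hx (n := p - 1) (by omega) _ R
      · intro r hr'
        obtain ⟨i, _, rfl⟩ := Finset.mem_image.1 hr'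
        exact ⟨hrp i, hrd i, hrl i⟩
      · have : ((p - 1 : ℕ) : ℝ) < p := by exact_mod_cast Nat.sub_lt (by omega) one_pos
        linarith
    have hRne : R.Nonempty := ⟨rf ⟨0, hkpos⟩, Finset.mem_image_of_mem rf (Finset.mem_univ _)⟩
    obtain ⟨r, hrR, hcard⟩ := Finset.exists_le_card_fiber_of_mul_le_card_of_maps_to
      (s := (Finset.univ : Finset (Fin k))) (t := R) (f := rf) (n := h)
      (fun i _ => Finset.mem_image_of_mem rf (Finset.mem_univ i)) hRne (by
        rw [Finset.card_univ, Fintype.card_fin, hk]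
        exact Nat.mul_le_mul_right h (hRcard.trans (Nat.le_succ _)))
    obtain ⟨s, hs, hsc⟩ := Finset.exists_subset_card_eq hcard
    refine ⟨(s.orderEmbOfFin hsc).toEmbedding, (p - 1) / r, ?_, ?_, ?_⟩
    · obtain ⟨i, _, hi⟩ := Finset.mem_image.1 hrR
      have h1 : r ∣ p - 1 := hi ▸ hrd i
      exact Nat.div_pos (Nat.le_of_dvd (by omega) h1) (by rw [← hi]; exact (hrp i).pos)
    · obtain ⟨i, _, hi⟩ := Finset.mem_image.1 hrR
      have h1 : x ^ α < (r : ℝ) := hi ▸ hrl i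
      have hx0 : 0 < x := by linarith
      have h2 : 0 < x ^ α := Real.rpow_pos_of_pos hx0 _
      have h3 : (((p - 1) / r : ℕ) : ℝ) ≤ ((p - 1 : ℕ) : ℝ) / r := Nat.cast_div_le
      have h4 : ((p - 1 : ℕ) : ℝ) ≤ x := by
        have : ((p - 1 : ℕ) : ℝ) ≤ p := by exact_mod_cast Nat.sub_le _ _
        linarith
      calc (((p - 1) / r : ℕ) : ℝ) ≤ ((p - 1 : ℕ) : ℝ) / r := h3
        _ ≤ x / x ^ α := by
            apply div_le_div₀ hx0.le h4 h2 h1.le
        _ = x ^ (1 - α) := by rw [Real.rpow_sub hx0, Real.rpow_one]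
    · intro i
      have hmem : (s.orderEmbOfFin hsc) i ∈ s := Finset.orderEmbOfFin_mem s hsc i
      have h1 := (Finset.mem_filter.1 (hs hmem)).2
      have h2 := hrb ((s.orderEmbOfFin hsc) i)
      rw [h1] at h2
      exact h2

end Pool.Agent.Helper14.NF
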