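import Pool.Agent.Helper14.NF.Endgame

/-!
# Project NF (MP_265190_nt), module C4: the main theorem for multiples `m q`
-/

set_option autoImplicit false

open Finset Filter Topology
open Pool.Agent.Helper18.NF Pool.Agent.Helper18.BV
open scoped Classical

namespace Pool.Agent.Helper14.NF

theorem length_eq_card_sigma (m : ℕ) :
    (m.primeFactors.sigma fun r => range (m.factorization r)).card = m.primeFactorsList.length := by
  rw [Finset.card_sigma]
  simp only [Finset.card_range]
  rw [← List.sum_toFinset_count_eq_length m.primeFactorsList]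
  apply Finset.sum_congr rfl
  intro r _
  exact (Nat.primeFactorsList_count_eq).symm

theorem fact_le_length (m r : ℕ) : m.factorization r ≤ m.primeFactorsList.length := by
  rw [← Nat.primeFactorsList_count_eq]
  exact List.count_le_length

theorem sum_A (R T : Finset ℕ) (hTR : T ⊆ R) (f : ℕ → ℤ) :
    ∑ r ∈ R, f r * (if r ∈ T then 1 else 0) = ∑ r ∈ T, f r := by
  simp only [mul_ite, mul_one, mul_zero]
  rw [Finset.sum_ite_mem, Finset.inter_eq_right.2 hTR]

theorem sum_B (R T : Finset ℕ) (hTR : T ⊆ R) (r0 : ℕ) (h0 : r0 ∈ R) (h0T : r0 ∉ T) (e : ℤ)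
    (f : ℕ → ℤ) :
    ∑ r ∈ R, f r * (if r = r0 then 1 else if r ∈ T then -e else 0) =
      f r0 - e * ∑ r ∈ T, f r := by
  have h : ∀ r ∈ R, f r * (if r = r0 then 1 else if r ∈ T then -e else 0) =
      (if r = r0 then f r else 0) + (if r ∈ T then -e * f r else 0) := by
    intro r _
    by_cases h1 : r = r0
    · subst h1; simp [h0T]
    · by_cases h2 : r ∈ T
      · simp [h1, h2]; ring
      · simp [h1, h2]
  rw [Finset.sum_congr rfl h, Finset.sum_add_distrib, Finset.sum_ite_eq', if_pos h0,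
    Finset.sum_ite_mem, Finset.inter_eq_right.2 hTR, ← Finset.mul_sum]
  ring

theorem pow_le_of_primes {T : Finset ℕ} {Y a : ℕ} (hT : ∀ q ∈ T, q.Prime ∧ Y ≤ q) (ha : 1 ≤ a) :
    Y ^ (∑ q ∈ T, a.factorization q) ≤ a := by
  have h1 : ∏ q ∈ T, q ^ a.factorization q ∣ a := by
    apply Finset.prod_dvd_of_isRelPrime
    · intro q hq r hr hqr
      change IsRelPrime (q ^ a.factorization q) (r ^ a.factorization r)
      rw [← Nat.coprime_iff_isRelPrime]
      apply Nat.Coprime.pow
      exact (Nat.coprime_primes (hT q hq).1 (hT r hr).1).2 hqr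
    · intro q _
      exact Nat.ordProj_dvd a q
  have h2 : ∏ q ∈ T, Y ^ a.factorization q ≤ ∏ q ∈ T, q ^ a.factorization q :=
    Finset.prod_le_prod' fun q hq => Nat.pow_le_pow_left (hT q hq).2 _
  rw [← Finset.prod_pow_eq_pow_sum]
  exact h2.trans (Nat.le_of_dvd (by omega) h1)

theorem mainK (h1 : SpecialK) (h2 : PatternK) (h3 : RankLemma) : MainK := by
  obtain ⟨c0, hc0, hc1, hsp⟩ := h1
  refine ⟨4 / c0 ^ 2, by positivity, ?_⟩
  intro m T0 Y LA LB hm hY hLA hLA' hLB hLBc hLBm hLY hmY S hS hcard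
  by_contra hcon
  push Not at hcon
  set Ls := LA ∪ LB with hLs
  have hLsp : ∀ l ∈ Ls, l.Prime ∧ l ≠ 2 := by
    intro l hl
    rcases Finset.mem_union.1 hl with h | h
    · exact hLA l h
    · exact ⟨(hLB l h).1, (hLB l h).2.1⟩
  set D : ℕ := ∏ l ∈ Ls, l with hD
  have hD1 : 1 ≤ D := Finset.prod_pos fun l hl => (hLsp l hl).1.pos
  have hD1' : (1:ℝ) ≤ D := by exact_mod_cast hD1
  set α : ℝ := c0 / (D : ℝ) ^ 2 with hα
  have hD2 : (1:ℝ) ≤ (D : ℝ) ^ 2 := one_le_pow₀ hD1'
  have hα0 : 0 < α := by rw [hα]; positivity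
  have hα1 : α ≤ 1 / 4 := by
    rw [hα]
    exact (div_le_self hc0.le hD2).trans hc1
  set h : ℕ := ⌊1 / α⌋₊ + 1 with hh
  set k : ℕ := (⌊1 / α⌋₊ + 1) * h with hk
  have hhpos : 0 < h := by omega
  have hkpos : 0 < k := by rw [hk]; positivity
  -- `k ≤ card S`
  have hkS : k ≤ S.card := by
    have e1 : (1:ℝ) ≤ 1 / α := by rw [le_div_iff₀ hα0]; linarith
    have e2 : ((⌊1 / α⌋₊ : ℕ) : ℝ) ≤ 1 / α := Nat.floor_le (by positivity)
    have e3 : (h : ℝ) ≤ 2 / α := by
      rw [hh]; push_cast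
      have : 2 / α = 1 / α + 1 / α := by ring
      linarith
    have e4 : (k : ℝ) = h ^ 2 := by
      rw [hk, hh]; push_cast; ring
    have e5 : (k : ℝ) ≤ (2 / α) ^ 2 := by
      rw [e4]
      exact pow_le_pow_left₀ (Nat.cast_nonneg _) e3 2
    have e6 : (2 / α) ^ 2 = 4 / c0 ^ 2 * (D : ℝ) ^ 4 := by
      rw [hα]
      have hD0 : (D : ℝ) ≠ 0 := by positivity
      field_simp
      ring
    have e7 : (k : ℝ) ≤ S.card := by
      calc (k : ℝ) ≤ 4 / c0 ^ 2 * (D : ℝ) ^ 4 := e5.trans e6.le
        _ ≤ S.card := hcard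
    exact_mod_cast e7
  obtain ⟨T, hTS, hTk⟩ := Finset.exists_subset_card_eq hkS
  have hT : ∀ q ∈ T, q.Prime ∧ Y ≤ q ∧ q < 2 * Y ∧ ¬ q ∣ m := fun q hq => hS q (hTS hq)
  set X : ℕ := 2 * m * Y - 1 with hX
  have hmY1 : 1 ≤ m * Y := Nat.mul_pos hm (by omega)
  have hmY2 : 2 * m * Y = 2 * (m * Y) := by ring
  have hX1 : X + 1 = 2 * m * Y := by omega
  have hTX : ∀ q ∈ T, m * q ≤ X := by
    intro q hq
    have h4 := (hT q hq).2.2.1
    have h5 : m * q < m * (2 * Y) := Nat.mul_lt_mul_of_pos_left h4 hm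
    have h6 : m * (2 * Y) = 2 * m * Y := by ring
    omega
  have hqX : ∀ q ∈ T, q ≤ X := fun q hq =>
    le_trans (Nat.le_mul_of_pos_left q hm) (hTX q hq)
  have hqm : ∀ q ∈ T, m.factorization q = 0 := fun q hq =>
    Nat.factorization_eq_zero_of_not_dvd (hT q hq).2.2.2
  have hmX : m ≤ X := by
    have : m * 1 ≤ m * Y := Nat.mul_le_mul_left m (by omega)
    omega
  -- the numbers `b i`
  set b : Fin k → ℕ := fun i => m * T.orderEmbOfFin hTk i with hb
  have hbT : ∀ i, T.orderEmbOfFin hTk i ∈ T := fun i => Finset.orderEmbOfFin_mem T hTk i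
  have hprime_fac : ∀ q q' : ℕ, q.Prime → q'.Prime → q ≠ q' → q.factorization q' = 0 := by
    intro q q' hq hq' hne
    apply Nat.factorization_eq_zero_of_not_dvd
    intro hd
    rcases (Nat.dvd_prime hq).1 hd with h | h
    · exact hq'.ne_one h
    · exact hne h.symm
  have hfacmul : ∀ q ∈ T, ∀ r : ℕ, (m * q).factorization r =
      m.factorization r + q.factorization r := by
    intro q hq r
    rw [Nat.factorization_mul (by omega) (hT q hq).1.ne_zero]
    rfl
  have hb2 : ∀ i, 2 ≤ b i ∧ b i ≤ X := by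
    intro i
    refine ⟨?_, hTX _ (hbT i)⟩
    have h4 := (hT _ (hbT i)).1.two_le
    calc 2 ≤ T.orderEmbOfFin hTk i := h4
      _ ≤ m * T.orderEmbOfFin hTk i := Nat.le_mul_of_pos_left _ hm
  have hind : ∀ e : Fin k → ℤ, ∏ i, ((b i : ℕ) : ℚ) ^ e i = 1 → e = 0 := by
    apply indep_of_private b (fun i => T.orderEmbOfFin hTk i)
    · intro i; have := (hb2 i).1; omega
    · intro i
      change (m * T.orderEmbOfFin hTk i).factorization _ = 1
      rw [hfacmul _ (hbT i), hqm _ (hbT i), (hT _ (hbT i)).1.factorization_self]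
    · intro i j hij
      change (m * T.orderEmbOfFin hTk i).factorization _ = 0
      rw [hfacmul _ (hbT i), hqm _ (hbT j), hprime_fac _ _ (hT _ (hbT i)).1 (hT _ (hbT j)).1]
      intro h
      exact hij ((T.orderEmbOfFin hTk).injective h)
  -- the patterns
  set P : Finset (Σ _ : ℕ, ℕ) := m.primeFactors.sigma fun r => range (m.factorization r) with hP
  have hPc : LB.card = P.card := by rw [hLBc, hP, length_eq_card_sigma]
  set eqv := Finset.equivOfCardEq hPc with heqv
  set φ : ℕ → (Σ _ : ℕ, ℕ) := fun l => if hl : l ∈ LB then (eqv ⟨l, hl⟩).1 else ⟨0, 0⟩ with hφ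
  have hφ1 : ∀ l ∈ LB, φ l ∈ P := by
    intro l hl
    rw [hφ]; simp only [hl, dif_pos]
    exact (eqv ⟨l, hl⟩).2
  have hφ2 : ∀ x ∈ P, ∃ l ∈ LB, φ l = x := by
    intro x hx
    refine ⟨(eqv.symm ⟨x, hx⟩).1, (eqv.symm ⟨x, hx⟩).2, ?_⟩
    rw [hφ]; simp only [(eqv.symm ⟨x, hx⟩).2, dif_pos, Subtype.coe_eta, Equiv.apply_symm_apply]
  have hφm : ∀ l ∈ LB, (φ l).1.Prime ∧ (φ l).1 ∣ m ∧ (φ l).2 < m.factorization (φ l).1 := by
    intro l hl
    have h4 := hφ1 l hl
    rw [hP, Finset.mem_sigma, Nat.mem_primeFactors, Finset.mem_range] at h4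
    exact ⟨h4.1.1, h4.1.2.1, h4.2⟩
  set y : ℕ → ℕ → ℤ := fun l r => if l ∈ LA then (if r ∈ T then 1 else 0) else
    (if r = (φ l).1 then 1 else if r ∈ T then -((φ l).2 : ℤ) else 0) with hy
  set R : Finset ℕ := (range (X + 1)).filter Nat.Prime with hR
  have hRmem : ∀ r, r ∈ R ↔ r ≤ X ∧ r.Prime := by
    intro r
    rw [hR, Finset.mem_filter, Finset.mem_range, Nat.lt_succ_iff]
  have hTR : T ⊆ R := fun q hq => (hRmem q).2 ⟨hqX q hq, (hT q hq).1⟩
  have hφR : ∀ l ∈ LB, (φ l).1 ∈ R := by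
    intro l hl
    obtain ⟨e1, e2, _⟩ := hφm l hl
    exact (hRmem _).2 ⟨(Nat.le_of_dvd hm e2).trans hmX, e1⟩
  have hφT : ∀ l ∈ LB, (φ l).1 ∉ T := by
    intro l hl hT'
    exact (hT _ hT').2.2.2 (hφm l hl).2.1
  have hsumA : ∀ l ∈ LA, ∀ a : ℕ, ∑ r ∈ R, (a.factorization r : ℤ) * y l r =
      ((∑ q ∈ T, a.factorization q : ℕ) : ℤ) := by
    intro l hl a
    have : ∀ r, y l r = if r ∈ T then 1 else 0 := by
      intro r; rw [hy]; simp only [hl, if_true]
    simp only [this]
    rw [sum_A R T hTR]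
    push_cast; rfl
  have hsumB : ∀ l ∈ LB, ∀ a : ℕ, ∑ r ∈ R, (a.factorization r : ℤ) * y l r =
      (a.factorization (φ l).1 : ℤ) - (φ l).2 * ((∑ q ∈ T, a.factorization q : ℕ) : ℤ) := by
    intro l hl a
    have hlA : l ∉ LA := (hLB l hl).2.2
    have : ∀ r, y l r = if r = (φ l).1 then 1 else if r ∈ T then -((φ l).2 : ℤ) else 0 := by
      intro r; rw [hy]; simp only [hlA, if_false]
    simp only [this]
    rw [sum_B R T hTR _ (hφR l hl) (hφT l hl)]
    push_cast; rfl
  have hTne : ∃ q, q ∈ T := ⟨_, hbT ⟨0, hkpos⟩⟩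
  have hnondeg : ∀ l ∈ Ls, ∃ r ∈ R, ¬ (l : ℤ) ∣ y l r := by
    intro l hl
    have hlp := (hLsp l hl).1
    have hl1 : ¬ (l : ℤ) ∣ 1 := by
      intro hd
      have := Int.natCast_dvd_natCast.1 (by simpa using hd : (l : ℤ) ∣ ((1 : ℕ) : ℤ))
      exact hlp.ne_one (Nat.dvd_one.1 this)
    by_cases hA : l ∈ LA
    · obtain ⟨q, hq⟩ := hTne
      refine ⟨q, hTR hq, ?_⟩
      have : y l q = 1 := by rw [hy]; simp only [hA, hq, if_true]
      rw [this]; exact hl1
    · have hB : l ∈ LB := by
        rcases Finset.mem_union.1 hl with h | h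
        · exact absurd h hA
        · exact h
      refine ⟨(φ l).1, hφR l hB, ?_⟩
      have : y l (φ l).1 = 1 := by rw [hy]; simp only [hA, if_false, if_true]
      rw [this]; exact hl1
  have h3A : 3 ∈ LA := hLA' 3 Nat.prime_three (by norm_num) (le_max_left _ _)
  obtain ⟨v, u, hv0, hcop, h2v, hrv, hlv, hrne, hsq⟩ := h2 Ls T X hLsp
    (Finset.mem_union_left _ h3A) (by
      intro q hq
      obtain ⟨e1, e2, e3, e4⟩ := hT q hq
      refine ⟨e1, ?_, by omega, hqX q hq⟩
      intro hqL
      have := hLY q hqL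
      omega)
  -- consequences for one special prime
  have hT2 : ∀ q ∈ T, ∑ q' ∈ T, (m * q).factorization q' = 1 := by
    intro q hq
    rw [Finset.sum_eq_single q]
    · rw [hfacmul q hq, hqm q hq, (hT q hq).1.factorization_self]
    · intro q' hq' hne
      rw [hfacmul q hq, hqm q' hq', hprime_fac q q' (hT q hq).1 (hT q' hq').1 hne.symm, add_zero]
    · intro h; exact absurd hq h
  refine endgame hα0 hα1 hh hkpos h3 (T.image (fun q => m * q)) ?_ X b hb2 hind
    (fun x p => p ≡ u [MOD v] ∧ Pat Ls R y p ∧ ∀ r : ℕ, r.Prime → r ∣ p - 1 → r = 2 ∨ r ∈ Ls ∨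
          x ^ α < (r : ℝ)) ?_ ?_
  · intro a ha
    obtain ⟨q, hq, rfl⟩ := Finset.mem_image.1 ha
    exact hcon q (hTS hq)
  · intro g hg hgne
    exact hsp Ls R y hLsp (fun r hr => ((hRmem r).1 hr).2) hnondeg v u hv0 hcop h2v
      (fun r hr => hrv r ((hRmem r).1 hr).2 ((hRmem r).1 hr).1) hlv hrne g hg hgne
  · intro x hx p hp hpx hXp hQ
    obtain ⟨hpu, hpat, hpr⟩ := hQ
    have hldvd : ∀ l ∈ Ls, l ∣ p - 1 := by
      intro l hl
      obtain ⟨e1, e2⟩ := hlv l hl
      have e3 : p ≡ u [MOD l] := hpu.of_dvd e1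
      have e4 : p % l = 1 := by rw [← e2]; exact e3
      have hp1 := hp.one_le
      exact (Nat.modEq_iff_dvd' hp1).1 (by
        unfold Nat.ModEq
        rw [e4, Nat.mod_eq_of_lt (hLsp l hl).1.one_lt])
    have hp2 : 2 < p := by have := (hb2 ⟨0, hkpos⟩); omega
    have hRall : ∀ a : ℕ, 1 ≤ a → a ≤ X → ∀ r : ℕ, r.Prime → r ∣ a → r ∈ R := by
      intro a ha1 haX r hr hra
      exact (hRmem r).2 ⟨(Nat.le_of_dvd ha1 hra).trans haX, hr⟩
    refine coverK hα0 hx hk hhpos hb2 hp hpx hXp hpr ?_ ?_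
    · -- the `b i` are not residues
      intro i r hr hrp hr2
      rcases hr2 with rfl | hrL
      · rintro ⟨z, hz⟩
        have hs : IsSquare ((b i : ℕ) : ZMod p) := ⟨z, by rw [← hz, sq]⟩
        have := (hsq p hp hpu hXp (b i) (by have := (hb2 i).1; omega) (hb2 i).2).1 hs
        apply this
        unfold odd
        have h4 : ∑ q' ∈ T, (b i).factorization q' = 1 := hT2 _ (hbT i)
        rw [h4]; exact odd_one
      · intro hz
        have h4 := (hpat r hrL (b i) (by have := (hb2 i).1; omega)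
          (hRall (b i) (by have := (hb2 i).1; omega) (hb2 i).2)).1 hz
        have h5 : ∑ q' ∈ T, (b i).factorization q' = 1 := hT2 _ (hbT i)
        rcases Finset.mem_union.1 hrL with hA | hB
        · rw [hsumA r hA, h5] at h4
          have := Int.natCast_dvd_natCast.1 h4
          exact hr.ne_one (Nat.dvd_one.1 this)
        · rw [hsumB r hB, h5] at h4
          obtain ⟨e1, e2, e3⟩ := hφm r hB
          have h6 : (b i).factorization (φ r).1 = m.factorization (φ r).1 := by
            change (m * T.orderEmbOfFin hTk i).factorization _ = _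
            rw [hfacmul _ (hbT i), hprime_fac _ _ (hT _ (hbT i)).1 e1]
            · rfl
            · intro h7
              exact hφT r hB (h7 ▸ hbT i)
          rw [h6] at h4
          have h7 : ((m.factorization (φ r).1 : ℤ) - (φ r).2 * ((1 : ℕ) : ℤ)) =
              ((m.factorization (φ r).1 - (φ r).2 : ℕ) : ℤ) := by
            push_cast [Nat.cast_sub e3.le]; ring
          rw [h7] at h4
          have h8 := Int.natCast_dvd_natCast.1 h4
          have h9 := Nat.le_of_dvd (by omega) h8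
          have h10 := fact_le_length m (φ r).1
          have h11 := hLBm r hB
          omega
    · -- every small primitive root is one of the `m q`
      intro a ha1 haX hroot
      have hnotpow : ∀ l ∈ Ls, ¬ (l : ℤ) ∣ ∑ r ∈ R, (a.factorization r : ℤ) * y l r := by
        intro l hl hd
        exact not_root_of_pow hp (hLsp l hl).1 (hldvd l hl) hroot
          ((hpat l hl a ha1 (hRall a ha1 haX)).2 hd)
      have hodd : Odd (∑ q ∈ T, a.factorization q) := by
        by_contra hno
        have h4 := (hsq p hp hpu hXp a ha1 haX).2 hno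
        have hnd : ¬ p ∣ a := by
          intro hd
          have := Nat.le_of_dvd (by omega) hd
          omega
        exact not_root_of_square hp hp2 hnd h4 hroot
      set t := ∑ q ∈ T, a.factorization q with ht
      have htT0 : t ≤ T0 := by
        have h4 : Y ^ t ≤ a := pow_le_of_primes (fun q hq => ⟨(hT q hq).1, (hT q hq).2.1⟩) ha1
        have h5 : Y ^ t < Y ^ (T0 + 1) := by omega
        have h6 := (Nat.pow_lt_pow_iff_right (by omega : 1 < Y)).1 h5
        omega
      have ht1 : t = 1 := by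
        by_contra hne
        have hmf := Nat.minFac_prime hne
        have hmd := Nat.minFac_dvd t
        have htpos : 0 < t := hodd.pos
        have hmle := (Nat.minFac_le htpos).trans htT0
        have hm2 : t.minFac ≠ 2 := by
          intro h4
          rw [h4] at hmd
          exact (Nat.not_even_iff_odd.2 hodd) (even_iff_two_dvd.2 hmd)
        have hmA := hLA' t.minFac hmf hm2 (hmle.trans (le_max_right _ _))
        apply hnotpow t.minFac (Finset.mem_union_left _ hmA)
        rw [hsumA _ hmA]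
        exact Int.natCast_dvd_natCast.2 hmd
      obtain ⟨q, hq, hqa⟩ : ∃ q ∈ T, a.factorization q ≠ 0 := by
        by_contra hno
        push Not at hno
        rw [ht, Finset.sum_eq_zero hno] at ht1
        omega
      have hqd : q ∣ a := Nat.dvd_of_factorization_pos hqa
      have hfac : ∀ r0 : ℕ, m.factorization r0 ≤ a.factorization r0 := by
        intro r0
        by_contra hlt
        push Not at hlt
        have hr0 : r0.Prime := by
          by_contra hnp
          rw [Nat.factorization_eq_zero_of_not_prime m hnp] at hlt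
          omega
        have hr0m : r0 ∣ m := Nat.dvd_of_factorization_pos (by omega)
        have hmem : (⟨r0, a.factorization r0⟩ : Σ _ : ℕ, ℕ) ∈ P := by
          rw [hP, Finset.mem_sigma, Nat.mem_primeFactors, Finset.mem_range]
          exact ⟨⟨hr0, hr0m, by omega⟩, hlt⟩
        obtain ⟨l, hl, hlφ⟩ := hφ2 _ hmem
        apply hnotpow l (Finset.mem_union_right _ hl)
        rw [hsumB l hl, hlφ, ← ht, ht1]
        simp
      have hma : m ∣ a := (Nat.factorization_le_iff_dvd (by omega) (by omega)).1 fun r0 => hfac r0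
      have hcopq : Nat.Coprime m q := ((hT q hq).1.coprime_iff_not_dvd.2 (hT q hq).2.2.2).symm
      obtain ⟨c, hc⟩ := hcopq.mul_dvd_of_dvd_of_dvd hma hqd
      have hc1' : c = 1 := by
        have hc0' : c ≠ 0 := by rintro rfl; omega
        by_contra hne
        have h5 : 2 ≤ c := by omega
        have h6 : m * q * 2 ≤ m * q * c := Nat.mul_le_mul_left _ h5
        have h7 : m * Y ≤ m * q := Nat.mul_le_mul_left m (hT q hq).2.1
        omega
      rw [hc1', mul_one] at hc
      exact Finset.mem_image.2 ⟨q, hq, hc.symm⟩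

end Pool.Agent.Helper14.NF
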